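import Pool.Agent.Helper26.AF.Goals2

/-!
# Project AF, packet COR2 (2-core decomposition, upper bound)
-/

set_option autoImplicit false

open Finset

namespace Pool.Agent.Helper93.AF

open Pool.Agent.Helper26.AF

variable {k : ℕ}

/-- adjacency inside `S` -/
def RR (G : SimpleGraph (Fin k)) (S : Finset (Fin k)) (a b : Fin k) : Prop :=
  G.Adj a b ∧ a ∈ S ∧ b ∈ S

/-- the state of the peeling -/
structure Core (G : SimpleGraph (Fin k)) (S : Finset (Fin k)) (f : Fin k → Fin k) (r : ℕ) :
    Prop where
  nonempty : S.Nonempty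
  conn : ∀ u ∈ S, ∀ v ∈ S, Relation.ReflTransGen (RR G S) u v
  edges : {e : Sym2 (Fin k) | e ∈ G.edgeSet ∧ ∀ v ∈ e, v ∈ S}.ncard = #S + r
  isfor : IsFor S f
  adj : ∀ x, x ∉ S → G.Adj x (f x)
  cover : ∀ x y, G.Adj x y → (x ∈ S ∧ y ∈ S) ∨ (x ∉ S ∧ y = f x) ∨ (y ∉ S ∧ x = f y)

theorem core_start (G : SimpleGraph (Fin k)) (r : ℕ) (hc : G.Connected) (hn : ne G = k + r) :
    Core G univ id r where
  nonempty := by
    obtain ⟨x⟩ := hc.nonempty
    exact ⟨x, mem_univ x⟩
  conn := by
    intro u _ v _
    have h := (hc.preconnected u v)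
    rw [SimpleGraph.reachable_iff_reflTransGen] at h
    exact Relation.ReflTransGen.mono (fun a b hab => ⟨hab, mem_univ _, mem_univ _⟩) _ _ h
  edges := by
    have h : {e : Sym2 (Fin k) | e ∈ G.edgeSet ∧ ∀ v ∈ e, v ∈ (univ : Finset (Fin k))}
        = G.edgeSet := by
      ext e
      simp
    rw [h, ← Nat.card_coe_set_eq]
    change ne G = _
    rw [hn, Finset.card_univ, Fintype.card_fin]
  isfor := ⟨fun x _ => rfl, fun x => ⟨0, mem_univ _⟩⟩
  adj := fun x hx => absurd (mem_univ x) hx
  cover := fun x y _ => Or.inl ⟨mem_univ _, mem_univ _⟩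

theorem peel (G : SimpleGraph (Fin k)) (S : Finset (Fin k)) (f : Fin k → Fin k) (r : ℕ)
    (hr : 1 ≤ r) (h : Core G S f r) (x : Fin k) (hx : x ∈ S)
    (hd : ∀ y ∈ S, ∀ z ∈ S, G.Adj x y → G.Adj x z → y = z) :
    ∃ (S' : Finset (Fin k)) (f' : Fin k → Fin k), #S' < #S ∧ Core G S' f' r := by
  by_cases hy : ∃ y ∈ S, G.Adj x y
  · obtain ⟨y, hyS, hxy⟩ := hy
    have hyx : y ≠ x := fun e => G.loopless.irrefl x (by rw [e] at hxy; exact hxy)
    have uniq : ∀ z ∈ S, G.Adj x z → z = y := fun z hz hxz => hd z hz y hyS hxz hxy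
    refine ⟨S.erase x, Function.update f x y, Finset.card_erase_lt_of_mem hx, ?_⟩
    have hfx : Function.update f x y x = y := Function.update_self x y f
    have hfo : ∀ z, z ≠ x → Function.update f x y z = f z := fun z hz =>
      Function.update_of_ne hz y f
    have hy' : y ∈ S.erase x := Finset.mem_erase.2 ⟨hyx, hyS⟩
    have hxS' : x ∉ S.erase x := Finset.notMem_erase x S
    refine ⟨⟨y, hy'⟩, ?_, ?_, ⟨?_, ?_⟩, ?_, ?_⟩
    · -- connected
      intro u hu v hv
      have huS := Finset.mem_of_mem_erase hu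
      have hvS := Finset.mem_of_mem_erase hv
      have hux := Finset.ne_of_mem_erase hu
      have hvx := Finset.ne_of_mem_erase hv
      have key := Relation.ReflTransGen.lift' (r := RR G S) (p := RR G (S.erase x))
        (fun w : Fin k => if w = x then y else w)
        (fun a b (hab : RR G S a b) => by
          obtain ⟨h1, h2, h3⟩ := hab
          by_cases hax : a = x
          · have hb : b = y := uniq b h3 (by rw [← hax]; exact h1)
            have : (if a = x then y else a) = (if b = x then y else b) := by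
              rw [if_pos hax, hb, if_neg hyx]
            change Relation.ReflTransGen _ (if a = x then y else a) (if b = x then y else b)
            rw [this]
          · by_cases hbx : b = x
            · have ha : a = y := uniq a h2 (by rw [← hbx]; exact h1.symm)
              have : (if a = x then y else a) = (if b = x then y else b) := by
                rw [if_pos hbx, ha, if_neg hyx]
              change Relation.ReflTransGen _ (if a = x then y else a) (if b = x then y else b)
              rw [this]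
            · change Relation.ReflTransGen _ (if a = x then y else a) (if b = x then y else b)
              rw [if_neg hax, if_neg hbx]
              exact Relation.ReflTransGen.single
                ⟨h1, Finset.mem_erase.2 ⟨hax, h2⟩, Finset.mem_erase.2 ⟨hbx, h3⟩⟩)
        u v (h.conn u huS v hvS)
      change Relation.ReflTransGen _ (if u = x then y else u) (if v = x then y else v) at key
      rw [if_neg hux, if_neg hvx] at key
      exact key
    · -- edges
      have e1 : {e : Sym2 (Fin k) | e ∈ G.edgeSet ∧ ∀ v ∈ e, v ∈ S}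
          = insert s(x, y) {e : Sym2 (Fin k) | e ∈ G.edgeSet ∧ ∀ v ∈ e, v ∈ S.erase x} := by
        ext e
        rw [Set.mem_insert_iff]
        constructor
        · rintro ⟨h1, h2⟩
          by_cases hxe : x ∈ e
          · left
            obtain ⟨z, rfl⟩ := Sym2.mem_iff_exists.1 hxe
            have hz : z ∈ S := h2 z (Sym2.mem_mk_right x z)
            rw [uniq z hz (by rwa [SimpleGraph.mem_edgeSet] at h1)]
          · right
            refine ⟨h1, fun v hv => Finset.mem_erase.2 ⟨fun e' => hxe (e' ▸ hv), h2 v hv⟩⟩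
        · rintro (rfl | ⟨h1, h2⟩)
          · refine ⟨hxy, fun v hv => ?_⟩
            rcases Sym2.mem_iff.1 hv with rfl | rfl
            · exact hx
            · exact hyS
          · exact ⟨h1, fun v hv => Finset.mem_of_mem_erase (h2 v hv)⟩
      have e2 : s(x, y) ∉ {e : Sym2 (Fin k) | e ∈ G.edgeSet ∧ ∀ v ∈ e, v ∈ S.erase x} := by
        rintro ⟨-, h2⟩
        exact hxS' (h2 x (Sym2.mem_mk_left x y))
      have e3 := h.edges
      rw [e1, Set.ncard_insert_of_notMem e2] at e3
      have e4 : #(S.erase x) + 1 = #S := Finset.card_erase_add_one hx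
      omega
    · intro z hz
      rw [hfo z (Finset.ne_of_mem_erase hz)]
      exact h.isfor.1 z (Finset.mem_of_mem_erase hz)
    · have key : ∀ (i : ℕ) (z : Fin k), f^[i] z ∈ S →
          ∃ j : ℕ, (Function.update f x y)^[j] z ∈ S.erase x := by
        intro i
        induction i with
        | zero =>
          intro z hz
          by_cases hzx : z = x
          · refine ⟨1, ?_⟩
            rw [Function.iterate_one, hzx, hfx]
            exact hy'
          · exact ⟨0, Finset.mem_erase.2 ⟨hzx, hz⟩⟩
        | succ i ih =>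
          intro z hz
          by_cases hzx : z = x
          · refine ⟨1, ?_⟩
            rw [Function.iterate_one, hzx, hfx]
            exact hy'
          · rw [Function.iterate_succ_apply] at hz
            obtain ⟨j, hj⟩ := ih (f z) hz
            refine ⟨j + 1, ?_⟩
            rw [Function.iterate_succ_apply, hfo z hzx]
            exact hj
      intro z
      obtain ⟨i, hi⟩ := h.isfor.2 z
      exact key i z hi
    · intro z hz
      by_cases hzx : z = x
      · rw [hzx, hfx]; exact hxy
      · rw [hfo z hzx]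
        exact h.adj z fun hzS => hz (Finset.mem_erase.2 ⟨hzx, hzS⟩)
    · intro a b hab
      rcases h.cover a b hab with ⟨ha, hb⟩ | ⟨ha, hb⟩ | ⟨hb, ha⟩
      · by_cases hax : a = x
        · right; left
          subst hax
          refine ⟨hxS', ?_⟩
          rw [hfx]
          exact uniq b hb hab
        · by_cases hbx : b = x
          · right; right
            subst hbx
            refine ⟨hxS', ?_⟩
            rw [hfx]
            exact uniq a ha hab.symm
          · exact Or.inl ⟨Finset.mem_erase.2 ⟨hax, ha⟩, Finset.mem_erase.2 ⟨hbx, hb⟩⟩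
      · right; left
        have hax : a ≠ x := fun e => ha (e ▸ hx)
        refine ⟨fun h' => ha (Finset.mem_of_mem_erase h'), ?_⟩
        rw [hfo a hax]; exact hb
      · right; right
        have hbx : b ≠ x := fun e => hb (e ▸ hx)
        refine ⟨fun h' => hb (Finset.mem_of_mem_erase h'), ?_⟩
        rw [hfo b hbx]; exact ha
  · exfalso
    push Not at hy
    have hS : S = {x} := by
      ext v
      rw [Finset.mem_singleton]
      constructor
      · intro hv
        rcases Relation.ReflTransGen.cases_head (h.conn x hx v hv) with h1 | ⟨b, h1, -⟩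
        · exact h1.symm
        · exact absurd h1.1 (hy b h1.2.2)
      · rintro rfl; exact hx
    have he : {e : Sym2 (Fin k) | e ∈ G.edgeSet ∧ ∀ v ∈ e, v ∈ S} = ∅ := by
      rw [Set.eq_empty_iff_forall_notMem]
      rintro e ⟨h1, h2⟩
      induction e using Sym2.ind with
      | _ a b =>
        have ha := h2 a (Sym2.mem_mk_left a b)
        have hb := h2 b (Sym2.mem_mk_right a b)
        rw [hS, Finset.mem_singleton] at ha hb
        rw [ha, hb] at h1
        exact G.loopless.irrefl x h1
    have := h.edges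
    rw [he, Set.ncard_empty] at this
    omega

/-- the core -/
theorem exists_core (G : SimpleGraph (Fin k)) (r : ℕ) (hr : 1 ≤ r) : ∀ (N : ℕ)
    (S : Finset (Fin k)) (f : Fin k → Fin k), #S = N → Core G S f r →
    ∃ (S' : Finset (Fin k)) (f' : Fin k → Fin k), Core G S' f' r ∧
      ∀ x ∈ S', ∃ y ∈ S', ∃ z ∈ S', G.Adj x y ∧ G.Adj x z ∧ y ≠ z := by
  intro N
  induction N using Nat.strong_induction_on with
  | _ N ih =>
    intro S f hN hS
    by_cases hd : ∀ x ∈ S, ∃ y ∈ S, ∃ z ∈ S, G.Adj x y ∧ G.Adj x z ∧ y ≠ z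
    · exact ⟨S, f, hS, hd⟩
    · push Not at hd
      obtain ⟨x, hx, hd⟩ := hd
      obtain ⟨S', f', h1, h2⟩ := peel G S f r hr hS x hx
        (fun y hy z hz h1 h2 => hd y hy z hz h1 h2)
      exact ih #S' (by omega) S' f' rfl h2

/-- the graph induced on `S` -/
noncomputable def gam (G : SimpleGraph (Fin k)) (S : Finset (Fin k)) : SimpleGraph (Fin #S) :=
  G.comap (S.orderEmbOfFin rfl)

theorem exists_idx (S : Finset (Fin k)) (a : Fin k) (ha : a ∈ S) :
    ∃ i : Fin #S, S.orderEmbOfFin rfl i = a := by
  have h := Finset.range_orderEmbOfFin S (rfl : #S = #S)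
  have : a ∈ Set.range (S.orderEmbOfFin (rfl : #S = #S)) := by
    rw [h]; exact ha
  exact this

theorem gam_conn (G : SimpleGraph (Fin k)) (S : Finset (Fin k)) (f : Fin k → Fin k) (r : ℕ)
    (h : Core G S f r) : (gam G S).Connected := by
  have key : ∀ u v : Fin k, Relation.ReflTransGen (RR G S) u v → ∀ i j : Fin #S,
      S.orderEmbOfFin rfl i = u → S.orderEmbOfFin rfl j = v → (gam G S).Reachable i j := by
    intro u v huv
    induction huv with
    | refl =>
      intro i j hi hj
      have : i = j := (S.orderEmbOfFin rfl).injective (hi.trans hj.symm)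
      rw [this]
    | tail h1 h2 ih =>
      rename_i b c
      intro i j hi hj
      obtain ⟨m, hm⟩ := exists_idx S b h2.2.1
      refine (ih i m hi hm).trans ?_
      apply SimpleGraph.Adj.reachable
      change G.Adj (S.orderEmbOfFin rfl m) (S.orderEmbOfFin rfl j)
      rw [hm, hj]
      exact h2.1
  have hne : Nonempty (Fin #S) := by
    obtain ⟨a, ha⟩ := h.nonempty
    obtain ⟨i, -⟩ := exists_idx S a ha
    exact ⟨i⟩
  refine ⟨fun i j => ?_⟩
  exact key _ _ (h.conn _ (Finset.orderEmbOfFin_mem S rfl i) _ (Finset.orderEmbOfFin_mem S rfl j))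
    i j rfl rfl

theorem gam_ne (G : SimpleGraph (Fin k)) (S : Finset (Fin k)) (f : Fin k → Fin k) (r : ℕ)
    (h : Core G S f r) : ne (gam G S) = #S + r := by
  rw [← h.edges]
  have e1 : {e : Sym2 (Fin k) | e ∈ G.edgeSet ∧ ∀ v ∈ e, v ∈ S}
      = Sym2.map (S.orderEmbOfFin rfl) '' (gam G S).edgeSet := by
    ext e
    constructor
    · rintro ⟨h1, h2⟩
      induction e using Sym2.ind with
      | _ a b =>
        obtain ⟨i, hi⟩ := exists_idx S a (h2 a (Sym2.mem_mk_left a b))
        obtain ⟨j, hj⟩ := exists_idx S b (h2 b (Sym2.mem_mk_right a b))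
        refine ⟨s(i, j), ?_, ?_⟩
        · change G.Adj (S.orderEmbOfFin rfl i) (S.orderEmbOfFin rfl j)
          rw [hi, hj]
          exact h1
        · rw [Sym2.map_mk, hi, hj]
    · rintro ⟨e', h1, rfl⟩
      induction e' using Sym2.ind with
      | _ i j =>
        rw [Sym2.map_mk]
        refine ⟨h1, fun v hv => ?_⟩
        rcases Sym2.mem_iff.1 hv with rfl | rfl
        · exact Finset.orderEmbOfFin_mem S rfl i
        · exact Finset.orderEmbOfFin_mem S rfl j
  rw [e1, Set.ncard_image_of_injective _ (Sym2.map.injective (S.orderEmbOfFin rfl).injective),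
    ← Nat.card_coe_set_eq]
  rfl

theorem gam_deg (G : SimpleGraph (Fin k)) (S : Finset (Fin k))
    (hd : ∀ x ∈ S, ∃ y ∈ S, ∃ z ∈ S, G.Adj x y ∧ G.Adj x z ∧ y ≠ z) (i : Fin #S) :
    2 ≤ dg (gam G S) i := by
  obtain ⟨y, hy, z, hz, h1, h2, h3⟩ := hd _ (Finset.orderEmbOfFin_mem S rfl i)
  obtain ⟨a, ha⟩ := exists_idx S y hy
  obtain ⟨b, hb⟩ := exists_idx S z hz
  unfold dg
  rw [Nat.card_coe_set_eq]
  refine Nat.succ_le_of_lt ((Set.one_lt_ncard (Set.toFinite _)).2 ⟨a, ?_, b, ?_, ?_⟩)
  · change G.Adj (S.orderEmbOfFin rfl i) (S.orderEmbOfFin rfl a)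
    rw [ha]; exact h1
  · change G.Adj (S.orderEmbOfFin rfl i) (S.orderEmbOfFin rfl b)
    rw [hb]; exact h2
  · intro e
    apply h3
    rw [← ha, ← hb, e]

/-- `G` has the core `S` -/
def PP (r : ℕ) (S : Finset (Fin k)) (G : SimpleGraph (Fin k)) : Prop :=
  ∃ f : Fin k → Fin k, Core G S f r ∧
      ∀ x ∈ S, ∃ y ∈ S, ∃ z ∈ S, G.Adj x y ∧ G.Adj x z ∧ y ≠ z

theorem determined (r : ℕ) (S : Finset (Fin k)) (G G' : SimpleGraph (Fin k)) (f : Fin k → Fin k)
    (h : Core G S f r) (h' : Core G' S f r) (hg : gam G S = gam G' S) : ∀ x y, G.Adj x y → G'.Adj x y := by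
  intro x y hxy
  rcases h.cover x y hxy with ⟨hx, hy⟩ | ⟨hx, hy⟩ | ⟨hy, hx⟩
  · obtain ⟨i, hi⟩ := exists_idx S x hx
    obtain ⟨j, hj⟩ := exists_idx S y hy
    have h1 : (gam G S).Adj i j := by
      change G.Adj (S.orderEmbOfFin rfl i) (S.orderEmbOfFin rfl j)
      rw [hi, hj]; exact hxy
    rw [hg] at h1
    change G'.Adj (S.orderEmbOfFin rfl i) (S.orderEmbOfFin rfl j) at h1
    rw [hi, hj] at h1
    exact h1
  · rw [hy]; exact h'.adj x hx
  · rw [hx]; exact (h'.adj y hy).symm

theorem card_fib (r : ℕ) (S : Finset (Fin k)) :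
    Nat.card {G : SimpleGraph (Fin k) // PP r S G} ≤
      Kc #S r * Nat.card {f : Fin k → Fin k // IsFor S f} := by
  unfold Kc
  rw [← Nat.card_prod]
  let φ : {G : SimpleGraph (Fin k) // PP r S G} →
      {G : SimpleGraph (Fin #S) // G.Connected ∧ (∀ v, 2 ≤ dg G v) ∧ ne G = #S + r} ×
        {f : Fin k → Fin k // IsFor S f} := fun G =>
    (⟨gam G.1 S, gam_conn G.1 S _ r G.2.choose_spec.1, gam_deg G.1 S G.2.choose_spec.2,
      gam_ne G.1 S _ r G.2.choose_spec.1⟩, ⟨G.2.choose, G.2.choose_spec.1.isfor⟩)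
  have hφ : Function.Injective φ := by
    intro G G' he
    have h1 : gam G.1 S = gam G'.1 S := congrArg (fun p => p.1.1) he
    have h2 : G.2.choose = G'.2.choose := congrArg (fun p => p.2.1) he
    have h3 := G.2.choose_spec.1
    have h4 := G'.2.choose_spec.1
    rw [← h2] at h4
    apply Subtype.ext
    ext x y
    exact ⟨determined r S G.1 G'.1 _ h3 h4 h1 x y, determined r S G'.1 G.1 _ h4 h3 h1.symm x y⟩
  exact Nat.card_le_card_of_injective φ hφ

open Classical in
theorem card_all (k r : ℕ) (hr : 1 ≤ r) :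
    Nc k r ≤ ∑ S : Finset (Fin k), Kc #S r * Nat.card {f : Fin k → Fin k // IsFor S f} := by
  have h1 : Nc k r ≤ ∑ S : Finset (Fin k), Nat.card {G : SimpleGraph (Fin k) // PP r S G} := by
    have e1 : Nc k r = #(univ.filter fun G : SimpleGraph (Fin k) =>
        G.Connected ∧ ne G = k + r) := by
      unfold Nc
      rw [Nat.card_eq_fintype_card, Fintype.card_subtype]
    have e2 : ∀ S : Finset (Fin k), Nat.card {G : SimpleGraph (Fin k) // PP r S G}
        = #(univ.filter fun G : SimpleGraph (Fin k) => PP r S G) := fun S => by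
      rw [Nat.card_eq_fintype_card, Fintype.card_subtype]
    simp only [e2]
    rw [e1]
    refine le_trans (Finset.card_le_card ?_) (Finset.card_biUnion_le (s := univ)
      (t := fun S : Finset (Fin k) => univ.filter fun G : SimpleGraph (Fin k) => PP r S G))
    intro G hG
    rw [Finset.mem_filter] at hG
    obtain ⟨-, hc, hn⟩ := hG
    obtain ⟨S, f, h1, h2⟩ := exists_core G r hr _ univ id rfl (core_start G r hc hn)
    rw [Finset.mem_biUnion]
    exact ⟨S, mem_univ _, Finset.mem_filter.2 ⟨mem_univ _, f, h1, h2⟩⟩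
  exact le_trans h1 (Finset.sum_le_sum fun S _ => card_fib r S)

theorem kc_zero (r : ℕ) : Kc 0 r = 0 := by
  unfold Kc
  have : IsEmpty {G : SimpleGraph (Fin 0) // G.Connected ∧ (∀ v, 2 ≤ dg G v) ∧ ne G = 0 + r} := by
    refine ⟨fun G => ?_⟩
    obtain ⟨x⟩ := G.2.1.nonempty
    exact x.elim0
  exact Nat.card_of_isEmpty

/-- PACKET COR2 -/
theorem goalCOR2 (hFOR : Pool.Agent.Helper26.AF.StmtFOR) : Pool.Agent.Helper26.AF.StmtCOR2 := by
  intro k r hr
  have h1 : Nc k r * k ≤ ∑ S : Finset (Fin k), Kc #S r * (#S * k ^ (k - #S)) := by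
    calc Nc k r * k
        ≤ (∑ S : Finset (Fin k), Kc #S r * Nat.card {f : Fin k → Fin k // IsFor S f}) * k :=
          Nat.mul_le_mul_right k (card_all k r hr)
      _ = ∑ S : Finset (Fin k), Kc #S r * (Nat.card {f : Fin k → Fin k // IsFor S f} * k) := by
          rw [Finset.sum_mul]
          exact Finset.sum_congr rfl fun S _ => mul_assoc _ _ _
      _ = ∑ S : Finset (Fin k), Kc #S r * (#S * k ^ (k - #S)) := by
          refine Finset.sum_congr rfl fun S _ => ?_
          rcases Finset.eq_empty_or_nonempty S with rfl | hS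
          · rw [Finset.card_empty, kc_zero, zero_mul, zero_mul]
          · rw [hFOR k S hS]
  refine le_trans h1 (le_of_eq ?_)
  have h2 := Finset.sum_powerset_apply_card (fun s => Kc s r * (s * k ^ (k - s)))
    (x := (univ : Finset (Fin k)))
  rw [Finset.powerset_univ, Finset.card_univ, Fintype.card_fin] at h2
  rw [h2, Finset.sum_range_succ']
  rw [kc_zero, zero_mul, smul_zero, add_zero]
  have h3 : Icc 1 k = (range k).image (fun i => i + 1) := by
    ext i
    rw [Finset.mem_Icc, Finset.mem_image]
    constructor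
    · rintro ⟨ha, hb⟩
      exact ⟨i - 1, Finset.mem_range.2 (by omega), by omega⟩
    · rintro ⟨j, hj, rfl⟩
      have := Finset.mem_range.1 hj
      omega
  rw [h3, Finset.sum_image (fun a _ b _ h => by simpa using h)]
  refine Finset.sum_congr rfl fun i _ => ?_
  rw [smul_eq_mul, mul_assoc]

end Pool.Agent.Helper93.AF
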